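import Pool.Agent.Q184.NB.Dom

/-!
# The hyperplane conjecture for symmetric bodies dominated by laws with few functionals

Q1 for all symmetric convex bodies `P ⊂ ℝⁿ` whose uniform distribution is at most `M` times the law
of `T X` outside a subset of `P` of at most `|P| / 200` of the volume. Here `X` is a random vector in
`ℝ^m`, `m` arbitrary, which has a density proportional to `∏_{i < N} h_i(⟪v_i, x⟫)`, `N ≤ m + q`, with
arbitrary log-concave functions `h_i` on the line, or is uniform on an affine image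
`S '' K ⊂ ℝ^m` of a body `K ⊂ ℝ^l`, `l ≤ m + r`, given by few functionals (class `Section B q p`);
and `T` is any affine map of `ℝ^m` onto `ℝⁿ`. Only `P` is assumed to be symmetric, and it need not
be given by few functionals. The constant depends on `q, r, B, p, M` only.
-/

set_option autoImplicit false

namespace Pool.Agent.Results.MP_dc1397_gt.DominatedBodies

open MeasureTheory Set
open scoped ENNReal InnerProductSpace

/-- Euclidean space of dimension `n` -/
abbrev Euc (n : ℕ) : Type := EuclideanSpace ℝ (Fin n)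

/-- convex body `D = -D`: compact, convex, symmetric, with nonempty interior -/
structure SymmetricBody {k : ℕ} (D : Set (Euc k)) : Prop where
  conv : Convex ℝ D
  comp : IsCompact D
  int : (interior D).Nonempty
  symm : ∀ x ∈ D, -x ∈ D

/-- `a (s₊)^p + b (s₋)^p`, where `a, b ∈ [0, ∞]` and `∞ · 0 = 0` -/
noncomputable def power (p : ℝ) (a b : ℝ≥0∞) (s : ℝ) : ℝ≥0∞ :=
  a * ENNReal.ofReal (max s 0 ^ p) + b * ENNReal.ofReal (max (-s) 0 ^ p)

/-- `K = {x | ⟪v_i, x⟫ ∈ I_i for all i < N}` with closed intervals `I_i` (which may be unbounded),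
`N ≤ m + q`: intersections of `m + q` halfspaces or slabs in `ℝ^m` -/
def Slabs (q : ℕ) {m : ℕ} (K : Set (Euc m)) : Prop :=
  ∃ (N : ℕ) (v : Fin N → Euc m) (I : Fin N → Set ℝ), N ≤ m + q ∧ (∀ i, IsClosed (I i)) ∧
    (∀ i, (I i).OrdConnected) ∧ K = {x | ∀ i, ⟪v i, x⟫_ℝ ∈ I i}

/-- `K = {x | ∑_{i < N} (a_i ⟪v_i, x⟫₊^p + b_i ⟪v_i, x⟫₋^p) ≤ 1}`, `a_i, b_i ∈ [0, ∞]`, `N ≤ m + q` -/
def Sums (p : ℝ) (q : ℕ) {m : ℕ} (K : Set (Euc m)) : Prop :=
  ∃ (N : ℕ) (v : Fin N → Euc m) (a b : Fin N → ℝ≥0∞), N ≤ m + q ∧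
    K = {x | ∑ i, power p (a i) (b i) ⟪v i, x⟫_ℝ ≤ 1}

/-- `K = {x | ∑_{j < k_i} |ℓ_ij(x)|^{e_ij} ≤ 1 for all i < M}`, `e_ij ≥ 2`, `∑ k_i ≤ m + q` -/
def Powers (q : ℕ) {m : ℕ} (K : Set (Euc m)) : Prop :=
  ∃ (M : ℕ) (k : Fin M → ℕ) (e : ∀ i, Fin (k i) → ℝ) (l : ∀ i, Fin (k i) → (Euc m →ₗ[ℝ] ℝ)),
    (∀ i, 1 ≤ k i) ∧ ∑ i, k i ≤ m + q ∧ (∀ i j, 2 ≤ e i j) ∧
    K = {x | ∀ i, ∑ j, |l i j x| ^ e i j ≤ 1}

/-- `K = {x | Q_i x ∈ D_i for all i < M}` with linear maps `Q_i : ℝ^m → ℝ^{k_i}` and symmetric convex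
bodies `D_i`, `k_i ≤ B`, `∑ k_i ≤ m + q` -/
def Blocks (B q : ℕ) {m : ℕ} (K : Set (Euc m)) : Prop :=
  ∃ (M : ℕ) (k : Fin M → ℕ) (Q : ∀ i, Euc m →ₗ[ℝ] Euc (k i)) (D : ∀ i, Set (Euc (k i))),
    (∀ i, k i ≤ B) ∧ ∑ i, k i ≤ m + q ∧ (∀ i, SymmetricBody (D i)) ∧ K = {x | ∀ i, Q i x ∈ D i}

/-- bounded, with nonempty interior, and of one of the four kinds `Slabs`, `Sums`, `Powers`,
`Blocks`, with at most `q` functionals more than the dimension -/
structure Section (B q : ℕ) (p : ℝ) {m : ℕ} (K : Set (Euc m)) : Prop where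
  bdd : Bornology.IsBounded K
  int : (interior K).Nonempty
  rep : Slabs q K ∨ Sums p q K ∨ Powers q K ∨ Blocks B q K

/-- log-concave functions `h ≥ 0` on the line -/
structure LogConcave (h : ℝ → ℝ) : Prop where
  nonneg : ∀ s, 0 ≤ h s
  conc : ∀ x y t : ℝ, 0 < t → t < 1 → h x ^ (1 - t) * h y ^ t ≤ h ((1 - t) * x + t * y)

/-- `∏_{i < N} h_i(⟪v_i, x⟫)` -/
noncomputable def ridge {m N : ℕ} (v : Fin N → Euc m) (h : Fin N → ℝ → ℝ) (x : Euc m) : ℝ :=
  ∏ i, h i ⟪v i, x⟫_ℝ

/-- the measure on `ℝ^m` with density proportional to `w` and total mass one -/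
noncomputable def normalised {m : ℕ} (w : Euc m → ℝ) : Measure (Euc m) :=
  (∫⁻ x, ENNReal.ofReal (w x))⁻¹ • volume.withDensity fun x => ENNReal.ofReal (w x)

/-- the uniform probability measure on `K` -/
noncomputable def unif {n : ℕ} (K : Set (Euc n)) : Measure (Euc n) :=
  (volume K)⁻¹ • volume.restrict K

/-- `μ` has a density proportional to a product of at most `m + q` log-concave ridge functions (the
integral of a function which is not integrable is zero by convention) -/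
def RidgeLaw (q : ℕ) {m : ℕ} (μ : Measure (Euc m)) : Prop :=
  ∃ (N : ℕ) (v : Fin N → Euc m) (h : Fin N → ℝ → ℝ), N ≤ m + q ∧ (∀ i, LogConcave (h i)) ∧
    0 < ∫ x, ridge v h x ∧ μ = normalised (ridge v h)

/-- `μ` is the uniform distribution on an affine image of a body of the class `Section B q p` in a
space of dimension at most `m + r` -/
def ImageLaw (B q r : ℕ) (p : ℝ) {m : ℕ} (μ : Measure (Euc m)) : Prop :=
  ∃ (l : ℕ) (K : Set (Euc l)) (S : Euc l →ᵃ[ℝ] Euc m), l ≤ m + r ∧ Section B q p K ∧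
    Function.Surjective S ∧ μ = unif (S '' K)

/-- the uniform distribution on `P` is at most `M ν` outside a subset of volume at most
`|P| / 200` -/
def Dominated {n : ℕ} (M : ℝ) (P : Set (Euc n)) (ν : Measure (Euc n)) : Prop :=
  ∃ E : Set (Euc n), MeasurableSet E ∧ volume E ≤ volume P / 200 ∧
    (volume P)⁻¹ • volume.restrict (P \ E) ≤ ENNReal.ofReal M • ν

/-- the Lebesgue measure of a Euclidean space -/
noncomputable def lebesgue (F : Type) [NormedAddCommGroup F] [InnerProductSpace ℝ F]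
    [FiniteDimensional ℝ F] [MeasurableSpace F] [BorelSpace F] : Measure F := volume

/-- the Lebesgue measure (of the Euclidean space `W`) of the section `Ω ∩ W` by a subspace `W` -/
noncomputable def areaIn {F : Type} [NormedAddCommGroup F] [InnerProductSpace ℝ F]
    [FiniteDimensional ℝ F] [MeasurableSpace F] [BorelSpace F] (W : Submodule ℝ F) (Ω : Set F) :
    ℝ≥0∞ := lebesgue W {y : W | (y : F) ∈ Ω}

section defs

variable {κ : Type} [Fintype κ]

open Classical in
/-- divergence of a vector field on `ℝ^κ` -/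
noncomputable def divergence (X : EuclideanSpace ℝ κ → EuclideanSpace ℝ κ)
    (x : EuclideanSpace ℝ κ) : ℝ :=
  ∑ i, fderiv ℝ X x (EuclideanSpace.single i 1) i

/-- `C¹` vector fields with compact support in `Ω` and `‖X‖ ≤ 1` -/
structure Test (Ω : Set (EuclideanSpace ℝ κ)) (X : EuclideanSpace ℝ κ → EuclideanSpace ℝ κ) :
    Prop where
  diff : ContDiff ℝ 1 X
  comp : HasCompactSupport X
  sub : tsupport X ⊆ Ω
  le : ∀ x, ‖X x‖ ≤ 1

/-- the (De Giorgi) perimeter `P(E; Ω)` of `E` relative to the open set `Ω` -/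
noncomputable def perimeter (E Ω : Set (EuclideanSpace ℝ κ)) : ℝ≥0∞ :=
  ⨆ (X : EuclideanSpace ℝ κ → EuclideanSpace ℝ κ) (_ : Test Ω X),
    ENNReal.ofReal (∫ x in E, divergence X x)

/-- the area (Lebesgue measure in the hyperplane `a^⊥`) of the central section of `Ω` by `a^⊥` -/
noncomputable def sectionArea (Ω : Set (EuclideanSpace ℝ κ)) (a : EuclideanSpace ℝ κ) : ℝ≥0∞ :=
  areaIn (Submodule.span ℝ {a})ᗮ Ω

/-- some central hyperplane section has area at most `C P(E; Ω)` for every measurable `E ⊆ Ω` with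
`|E| = |Ω| / 2` -/
def HyperplaneBound (C : ℝ) (Ω : Set (EuclideanSpace ℝ κ)) : Prop :=
  ∃ a : EuclideanSpace ℝ κ, a ≠ 0 ∧ ∀ E : Set (EuclideanSpace ℝ κ), MeasurableSet E → E ⊆ Ω →
    volume E = volume Ω / 2 → sectionArea Ω a ≤ ENNReal.ofReal C * perimeter E Ω

/-- the perimeter is the one used in the proof -/
theorem perimeter_eq (E Ω : Set (EuclideanSpace ℝ κ)) :
    Pool.Agent.W695.KH.per E Ω = perimeter E Ω := by
  unfold perimeter Pool.Agent.W695.KH.per
  refine iSup_congr fun X => ?_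
  refine iSup_congr_Prop ⟨fun h => ⟨h.1, h.2.1, h.2.2.1, h.2.2.2⟩,
    fun h => ⟨h.diff, h.comp, h.sub, h.le⟩⟩ fun _ => rfl

end defs

theorem base_of {B q : ℕ} {p : ℝ} {m : ℕ} {K : Set (Euc m)} (h : Section B q p K) :
    Pool.Agent.Y506.PV.Base q B p K := by
  refine ⟨h.bdd, h.int, ?_⟩
  rcases h.rep with h | h | h | h
  · obtain ⟨N, v, I, hN, hI1, hI2, hK⟩ := h
    exact Or.inl ⟨N, hN, v, I, hI1, hI2, hK⟩
  · obtain ⟨N, v, a, b, hN, hK⟩ := h
    exact Or.inr (Or.inl ⟨N, hN, v, a, b, hK⟩)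
  · obtain ⟨M, k, e, l, hk, hs, he, hK⟩ := h
    refine Or.inr (Or.inr (Or.inl ⟨M, k, hs, hk, e, fun i j =>
      LinearMap.toContinuousLinearMap (l i j), he, ?_⟩))
    rw [hK]
    rfl
  · obtain ⟨M, k, Q, D, hk, hs, hD, hK⟩ := h
    refine Or.inr (Or.inr (Or.inr ⟨M, k, hs, hk, fun i => LinearMap.toContinuousLinearMap (Q i),
      D, fun i => ⟨(hD i).comp.measurableSet, (hD i).conv, (hD i).comp.isBounded, (hD i).symm,
        (hD i).int⟩, fun i => (hD i).comp.isClosed, ?_⟩))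
    rw [hK]
    rfl

/-- the functional inequality for dominated bodies -/
theorem star_dom (q r B : ℕ) (p M : ℝ) (hp : 1 ≤ p) : ∃ c : ℝ, 0 < c ∧
    ∀ (m n : ℕ) (μ : Measure (Euc m)) (T : Euc m →ᵃ[ℝ] Euc n) (P : Set (Euc n)), 1 ≤ n →
    RidgeLaw q μ ∨ ImageLaw B q r p μ → Function.Surjective T → IsCompact P → Convex ℝ P →
    (interior P).Nonempty → Dominated M P (Measure.map T μ) →
    Pool.Agent.Y506.RG.Star c (Pool.Agent.Y506.PV.ind P) := by
  obtain ⟨κ1, hκ1, G1⟩ := Pool.Agent.Q184.NB.good_ridge q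
  obtain ⟨κ2, hκ2, G2⟩ := Pool.Agent.Q184.NB.good_affine q r B p hp
  obtain ⟨c1, hc1, H1⟩ := Pool.Agent.Q184.NB.dom_final κ1 hκ1 M
  obtain ⟨c2, hc2, H2⟩ := Pool.Agent.Q184.NB.dom_final κ2 hκ2 M
  refine ⟨max c1 c2, lt_max_of_lt_left hc1, fun m n μ T P hn hμ hT hPc hPv hPi hdom => ?_⟩
  have hm : 1 ≤ m := by
    have hl : Function.Surjective T.linear := by
      rwa [AffineMap.linear_surjective_iff]
    have := LinearMap.finrank_le_finrank_of_surjective (f := T.linear) hl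
    have h2 : n ≤ m := by simpa using this
    omega
  have hnn : ∀ x, 0 ≤ Pool.Agent.Y506.PV.ind P x :=
    fun x => indicator_nonneg (fun _ _ => zero_le_one) x
  obtain ⟨E, hE, hEv, hle⟩ := hdom
  rcases hμ with h | h
  · obtain ⟨N, v, h, hN, hh, hpos, hμ⟩ := h
    rw [hμ] at hle
    exact Pool.Agent.Y506.RG.Star.mono (le_max_left _ _) hnn
      (H1 m n _ T P E (G1 m N v h hm hN (fun i => (hh i).nonneg) (fun i => (hh i).conc) hpos) hT
        hPc hPv hPi hE hEv hle)
  · obtain ⟨l, K, S, hl, hK, hS, hμ⟩ := h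
    obtain ⟨h1, h2, h3, h4⟩ := G2 m l K S hm hl (base_of hK) hS
    have e := Pool.Agent.Y506.PV.pm_ind (S '' K) h1.measurableSet
    have hu : μ = Pool.Agent.Y506.RG.pm (Pool.Agent.Y506.PV.ind (S '' K)) := by
      rw [e, hμ]
      rfl
    rw [hu] at hle
    exact Pool.Agent.Y506.RG.Star.mono (le_max_right _ _) hnn
      (H2 m n _ T P E h4 hT hPc hPv hPi hE hEv hle)

/-- **The hyperplane conjecture for symmetric bodies dominated by laws with few functionals.** For
all `q, r, B, M` and `p ≥ 1` there is a constant `C > 0` such that for all `m, n ≥ 1`, all laws `μ` on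
`ℝ^m` of the class `RidgeLaw q` or `ImageLaw B q r p`, all affine maps `T` of `ℝ^m` onto `ℝⁿ`, and all
symmetric convex bodies `P ⊂ ℝⁿ` whose uniform distribution is at most `M` times the image of `μ`
under `T` outside a subset of volume at most `|P| / 200`, the interior `Ω` of `P` has a central
hyperplane section `Ω ∩ a^⊥` with `H_{n-1}(Ω ∩ a^⊥) ≤ C P(E; Ω)` for every measurable `E ⊆ Ω` with
`|E| = |Ω| / 2`. -/
theorem result : ∀ (q r B : ℕ) (p M : ℝ), 1 ≤ p → ∃ C : ℝ, 0 < C ∧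
    ∀ (m n : ℕ) (μ : Measure (Euc m)) (T : Euc m →ᵃ[ℝ] Euc n) (P : Set (Euc n)), 1 ≤ n →
    RidgeLaw q μ ∨ ImageLaw B q r p μ → Function.Surjective T → SymmetricBody P →
    Dominated M P (Measure.map T μ) → HyperplaneBound C (interior P) := by
  intro q r B p M hp
  obtain ⟨c, hc, H⟩ := star_dom q r B p M hp
  obtain ⟨C, hC, H'⟩ := Pool.Agent.Y151.PV.hyp
  refine ⟨C * c, by positivity, fun m n μ T P hn hμ hT hP hdom => ?_⟩
  have h1 := hP.comp
  have h2 := hP.conv
  have h3 := hP.int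
  have hs := hP.symm
  have h4 := H m n μ T P hn hμ hT h1 h2 h3 hdom
  have hcl : closure (interior P) = P := by
    rw [h2.closure_interior_eq_closure_of_nonempty_interior h3, h1.isClosed.closure_eq]
  have hsi : ∀ x ∈ interior P, -x ∈ interior P := by
    intro x hx
    have hop : IsOpen ((fun y => -y) ⁻¹' interior P) := isOpen_interior.preimage continuous_neg
    have hsub : (fun y => -y) ⁻¹' interior P ⊆ P := by
      intro y hy
      have := hs _ (interior_subset hy)
      rwa [neg_neg] at this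
    exact interior_maximal hsub hop (by simpa using hx)
  have h0 : (0 : Euc n) ∈ interior P := by
    obtain ⟨x, hx⟩ := h3
    have h := h2.interior hx (hsi x hx) (by norm_num : (0 : ℝ) ≤ 1 / 2)
      (by norm_num : (0 : ℝ) ≤ 1 / 2) (by norm_num)
    rwa [smul_neg, add_neg_cancel] at h
  obtain ⟨a, ha, h⟩ := H' n hn (interior P) isOpen_interior h2.interior
    (h1.isBounded.subset interior_subset) h0 hsi c hc (by rw [hcl]; exact h4)
  refine ⟨a, ha, fun E hE hEΩ hvol => ?_⟩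
  rw [← perimeter_eq]
  by_cases hp : Pool.Agent.W695.KH.per E (interior P) = ⊤
  · rw [hp, ENNReal.mul_top (ENNReal.ofReal_pos.2 (by positivity)).ne']
    exact le_top
  · refine (h E hE hEΩ hvol _ (Pool.Agent.W695.KH.perLe_toReal E _ hp)).trans (le_of_eq ?_)
    rw [ENNReal.ofReal_mul (by positivity), ENNReal.ofReal_toReal hp]

end Pool.Agent.Results.MP_dc1397_gt.DominatedBodies
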