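import Pool.Agent.Q155.IB.Hyp
import Pool.Agent.Q155.IB.Large

/-!
# The KLS hyperplane conjecture for symmetric images of bodies with a large symmetry group

Q1 for all symmetric convex bodies `T '' K ⊂ ℝⁿ` which are images, under affine maps `T` with a kernel
of dimension at most `r`, of convex bodies `K` invariant under a large group of one of four kinds (`K`
itself need not be centrally symmetric, and `T '' K` has no symmetry besides `x ↦ -x`):

(a) `Species Λ`: `K` is a set of configurations of `N` particles in `ℝ^d`, invariant under the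
permutations of the particles within their `q` species, `d, q ≤ Λ`, `N` arbitrary (for `d = q = 1`:
invariant under permutations of the coordinates);

(b) `Tree Λ`: `K` is a set of functions on the leaves of a rooted tree of depth `k ≤ Λ` with `m_j`
children at level `j`, `∏_j (1 + log (m_0 ⋯ m_{j-1}) / m_j)² ≤ Λ`, invariant under the automorphisms of
the tree;

(c) `Rotations Λ`: `K` is a set of tuples of `q` real `N × N` matrices and `m` vectors (or lies in a
rotation invariant subspace), `q + m ≤ Λ`, `N ≥ 3` arbitrary, invariant under rotations;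

(d) `Conjugations Λ`: `K` is a set of tuples of `q ≤ Λ` real symmetric or complex Hermitian `N × N`
matrices, `N ≥ 3` arbitrary, invariant under simultaneous conjugation.

The constant depends only on `Λ` and `r`. `HyperplaneBound C Ω`: there is a central hyperplane section
with `H_{n-1}(Ω ∩ a^⊥) ≤ C P(E; Ω)` for every measurable `E ⊆ Ω` with `|E| = |Ω| / 2`, with the De
Giorgi perimeter; this contains the inequality of Q1 for isoperimetric subsets.

New compared with the results `Particles`, `HierarchicallyExchangeable`, `TensorTuples`,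
`SimultaneousConjugation` (starting files) on this problem: there `Ω` itself is invariant under the group
acting by isometries; here `Ω` is any linear image, in particular any linear position, of bounded corank.

Method. The isotropic position of `K` can be chosen invariant, because the square root of the covariance
operator is a polynomial in it and commutes with the group; so the variance inequalities of the starting
modules give concentration relative to the covariance for all linear images of the uniform measure of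
`K` (`Q155.IB.cc_kl`), which passes to the uniform measure of `T '' K` by `Y506.PV.cc_img`; the rest is
the heat flow argument of the modules `KH` and `Y151.PV.hyp` (starting files).
-/

set_option autoImplicit false

namespace Pool.Agent.Results.MP_dc1397_gt.ImagesOfInvariantBodies

open MeasureTheory Set
open scoped ENNReal InnerProductSpace
open Pool.Agent.Q155.IB.Large (Species Tree Rotations Conjugations)

/-- Euclidean space of dimension `n` -/
abbrev Euc (n : ℕ) : Type := EuclideanSpace ℝ (Fin n)

/-- the four kinds of large groups, of complexity at most `Λ` -/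
def LargeGroup {κ : Type} [Fintype κ] (Λ : ℕ)
    (G : Set (EuclideanSpace ℝ κ ≃ₗᵢ[ℝ] EuclideanSpace ℝ κ)) : Prop :=
  Species Λ G ∨ Tree Λ G ∨ Rotations Λ G ∨ Conjugations Λ G

/-- convex body (compact, convex, with nonempty interior) invariant under the isometries in `G` -/
structure InvariantBody {κ : Type} [Fintype κ]
    (G : Set (EuclideanSpace ℝ κ ≃ₗᵢ[ℝ] EuclideanSpace ℝ κ)) (K : Set (EuclideanSpace ℝ κ)) :
    Prop where
  conv : Convex ℝ K
  comp : IsCompact K
  int : (interior K).Nonempty
  inv : ∀ g ∈ G, g '' K = K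

/-- the Lebesgue measure of a Euclidean space -/
noncomputable def lebesgue (F : Type) [NormedAddCommGroup F] [InnerProductSpace ℝ F]
    [FiniteDimensional ℝ F] [MeasurableSpace F] [BorelSpace F] : Measure F := volume

/-- the Lebesgue measure (of the Euclidean space `W`) of the section `Ω ∩ W` by a subspace `W` -/
noncomputable def areaIn {F : Type} [NormedAddCommGroup F] [InnerProductSpace ℝ F]
    [FiniteDimensional ℝ F] [MeasurableSpace F] [BorelSpace F] (W : Submodule ℝ F) (Ω : Set F) :
    ℝ≥0∞ := lebesgue W {y : W | (y : F) ∈ Ω}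

section defs

variable {κ : Type} [Fintype κ]

open Classical in
/-- divergence of a vector field on `ℝ^κ` -/
noncomputable def divergence (X : EuclideanSpace ℝ κ → EuclideanSpace ℝ κ)
    (x : EuclideanSpace ℝ κ) : ℝ :=
  ∑ i, fderiv ℝ X x (EuclideanSpace.single i 1) i

/-- `C¹` vector fields with compact support in `Ω` and `‖X‖ ≤ 1` -/
structure Test (Ω : Set (EuclideanSpace ℝ κ)) (X : EuclideanSpace ℝ κ → EuclideanSpace ℝ κ) :
    Prop where
  diff : ContDiff ℝ 1 X
  comp : HasCompactSupport X
  sub : tsupport X ⊆ Ω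
  le : ∀ x, ‖X x‖ ≤ 1

/-- the (De Giorgi) perimeter `P(E; Ω)` of `E` relative to the open set `Ω` -/
noncomputable def perimeter (E Ω : Set (EuclideanSpace ℝ κ)) : ℝ≥0∞ :=
  ⨆ (X : EuclideanSpace ℝ κ → EuclideanSpace ℝ κ) (_ : Test Ω X),
    ENNReal.ofReal (∫ x in E, divergence X x)

/-- the area (Lebesgue measure in the hyperplane `a^⊥`) of the central section of `Ω` by `a^⊥` -/
noncomputable def sectionArea (Ω : Set (EuclideanSpace ℝ κ)) (a : EuclideanSpace ℝ κ) : ℝ≥0∞ :=
  areaIn (Submodule.span ℝ {a})ᗮ Ω

/-- some central hyperplane section has area at most `C P(E; Ω)` for every measurable `E ⊆ Ω` with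
`|E| = |Ω| / 2` -/
def HyperplaneBound (C : ℝ) (Ω : Set (EuclideanSpace ℝ κ)) : Prop :=
  ∃ a : EuclideanSpace ℝ κ, a ≠ 0 ∧ ∀ E : Set (EuclideanSpace ℝ κ), MeasurableSet E → E ⊆ Ω →
    volume E = volume Ω / 2 → sectionArea Ω a ≤ ENNReal.ofReal C * perimeter E Ω

/-- the perimeter is the one used in the proof -/
theorem perimeter_eq (E Ω : Set (EuclideanSpace ℝ κ)) :
    Pool.Agent.W695.KH.per E Ω = perimeter E Ω := by
  unfold perimeter Pool.Agent.W695.KH.per
  refine iSup_congr fun X => ?_
  refine iSup_congr_Prop ⟨fun h => ⟨h.1, h.2.1, h.2.2.1, h.2.2.2⟩,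
    fun h => ⟨h.diff, h.comp, h.sub, h.le⟩⟩ fun _ => rfl

end defs

/-- the variance inequality of the starting modules for the four kinds of groups -/
theorem kl_large (Λ : ℕ) : ∃ C : ℝ, 0 < C ∧ ∀ (κ : Type) [Fintype κ]
    (G : Set (EuclideanSpace ℝ κ ≃ₗᵢ[ℝ] EuclideanSpace ℝ κ)), LargeGroup Λ G →
    Pool.Agent.Q155.IB.KL2 G C := by
  obtain ⟨C₀, hC₀, H₀⟩ := Pool.Agent.Q155.IB.Large.kl_species Λ
  obtain ⟨C₁, hC₁, H₁⟩ := Pool.Agent.Q155.IB.Large.kl_tree Λ
  obtain ⟨C₂, hC₂, H₂⟩ := Pool.Agent.Q155.IB.Large.kl_rot Λ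
  obtain ⟨C₃, hC₃, H₃⟩ := Pool.Agent.Q155.IB.Large.kl_conj Λ
  refine ⟨C₀ + C₁ + C₂ + C₃, by positivity, fun κ _ G hG => ?_⟩
  rcases hG with h | h | h | h
  · exact (H₀ κ G h).mono (by linarith)
  · exact (H₁ κ G h).mono (by linarith)
  · exact (H₂ κ G h).mono (by linarith)
  · exact (H₃ κ G h).mono (by linarith)

/-- **The KLS hyperplane conjecture for symmetric images of bodies with a large symmetry group.** For
all `Λ` and `r` there is a constant `C > 0` such that for all convex bodies `K ⊂ ℝ^κ` invariant under a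
large group of complexity at most `Λ` and all affine maps `T` of `ℝ^κ` onto `ℝⁿ`, `n ≥ 1`, with a kernel
of dimension at most `r`, for which `T '' K` is centrally symmetric, the interior `Ω` of `T '' K` has a
central hyperplane section `Ω ∩ a^⊥` with `H_{n-1}(Ω ∩ a^⊥) ≤ C P(E; Ω)` for every measurable `E ⊆ Ω`
with `|E| = |Ω| / 2`. -/
theorem result : ∀ Λ r : ℕ, ∃ C : ℝ, 0 < C ∧ ∀ (κ : Type) [Fintype κ]
    (G : Set (EuclideanSpace ℝ κ ≃ₗᵢ[ℝ] EuclideanSpace ℝ κ)), LargeGroup Λ G →
    ∀ K : Set (EuclideanSpace ℝ κ), InvariantBody G K →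
    ∀ (n : ℕ) (T : EuclideanSpace ℝ κ →ᵃ[ℝ] Euc n), 1 ≤ n → Fintype.card κ ≤ n + r →
    Function.Surjective T → (∀ x ∈ T '' K, -x ∈ T '' K) →
    HyperplaneBound C (interior (T '' K)) := by
  intro Λ r
  obtain ⟨C, hC, HKL⟩ := kl_large Λ
  obtain ⟨c, hc, H⟩ := Pool.Agent.Q155.IB.hyp_kl r C hC
  refine ⟨c, hc, fun κ _ G hG K hK n T hn hcard hT hs => ?_⟩
  obtain ⟨a, ha, h⟩ := H κ G (HKL κ G hG).kl n K T hn hcard hK.comp hK.conv hK.int
    (Pool.Agent.Q155.IB.Large.set_inv hK.inv) hT hs
  refine ⟨a, ha, fun E hE hEΩ hvol => ?_⟩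
  rw [← perimeter_eq]
  exact h E hE hEΩ hvol

end Pool.Agent.Results.MP_dc1397_gt.ImagesOfInvariantBodies
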