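import Pool.Agent.W695.KH.Final
import Pool.Agent.W695.KH.Per
import Pool.Agent.Q197.RG.Fin

/-!
# The hyperplane conjecture of Kannan, Lovasz and Simonovits for convex sets invariant under finite
reflection groups

For all symmetric open bounded convex sets in `ℝ^κ` invariant under a finite reflection group all of
whose irreducible components are of type `A` or `D` (a group of type `B` contains the group of type
`D`; by the classification all irreducible finite reflection groups of rank at least 9 are of type `A`,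
`B` or `D`), with `N` components, each generated by the exchanges of at least `m` vectors, the best
central hyperplane cut is at most `C √D (1 + log N / m)` times the perimeter of any set of half the
volume. Here `q` is the dimension of the space of the fixed vectors and `D = q + 1` or `D` is the KLS
constant (Poincare form) of the dimension `q`. In particular the constant is absolute for all groups
without fixed vectors the number of whose components is at most exponential in their dimensions.

Method: the variance bound of `Pool.Agent.Q197.RG.Fin` (discrete Bochner inequality for symmetric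
functions, Hardy inequality for functions odd under an exchange, even and odd parts, tails of the
block sums, KLS inequality in dimension `q` for the law of the centre of a Gaussian tilt). Then the
formalised implication from Poincare to Cheeger inequalities, the De Giorgi perimeter by
mollification and the bound for the central section of an even log-concave marginal of the starting
files (modules `KH`).
-/

set_option autoImplicit false

namespace Pool.Agent.Results.MP_dc1397_gt.ReflectionGroups

open MeasureTheory Set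
open scoped ENNReal InnerProductSpace

variable {κ ι ν : Type} [Fintype κ] [Fintype ι] [DecidableEq ι] [Fintype ν] [DecidableEq ν] {n r : ℕ}

/-- the number of the indices `i` with `b i = j` -/
def size {ι : Type} [Fintype ι] {n : ℕ} (b : ι → Fin n) (j : Fin n) : ℕ :=
  (Finset.univ.filter fun i => b i = j).card

/-- The data of a reflection group with components of types `A` and `D`. For each `j : Fin n` the
vectors `u i`, `b i = j`, are the vertices of a regular simplex centred at the origin of a subspace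
`E_j` of `ℝ^κ`, `dim E_j = size b j - 1`; for each `j : Fin r` the vectors `v i`, `d i = j`, are an
orthonormal basis of a subspace `E'_j`, `dim E'_j = size d j`; all these spaces are mutually
orthogonal. -/
structure Roots (b : ι → Fin n) (u : ι → EuclideanSpace ℝ κ) (d : ν → Fin r)
    (v : ν → EuclideanSpace ℝ κ) : Prop where
  surj : Function.Surjective b
  surj' : Function.Surjective d
  gram : ∀ i j, ⟪u i, u j⟫_ℝ =
    (if i = j then 1 else 0) - (if b i = b j then 1 / (size b (b i) : ℝ) else 0)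
  orth : ∀ i j, ⟪v i, v j⟫_ℝ = if i = j then 1 else 0
  perp : ∀ i j, ⟪u i, v j⟫_ℝ = 0

/-- the dimension `q` of the space `F` of the vectors fixed by the group -/
noncomputable def fixedDim (u : ι → EuclideanSpace ℝ κ) (v : ν → EuclideanSpace ℝ κ) : ℕ :=
  Module.finrank ℝ ((Submodule.span ℝ (range u ∪ range v))ᗮ : Submodule ℝ (EuclideanSpace ℝ κ))

/-- `Ω = -Ω` is invariant under the reflections of the group: the
exchanges of two vertices `u i`, `u j` of one of the simplices, the exchanges of two vectors `v i`,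
`v j` of one of the orthonormal bases, the exchanges of `v i` and `-v j`. -/
structure Invariant (b : ι → Fin n) (u : ι → EuclideanSpace ℝ κ) (d : ν → Fin r)
    (v : ν → EuclideanSpace ℝ κ) (Ω : Set (EuclideanSpace ℝ κ)) : Prop where
  refl : ∀ i j, b i = b j → ∀ x, x ∈ Ω → x - ⟪u i - u j, x⟫_ℝ • (u i - u j) ∈ Ω
  refl_sub : ∀ i j, d i = d j → ∀ x, x ∈ Ω → x - ⟪v i - v j, x⟫_ℝ • (v i - v j) ∈ Ω
  refl_add : ∀ i j, i ≠ j → d i = d j → ∀ x, x ∈ Ω → x - ⟪v i + v j, x⟫_ℝ • (v i + v j) ∈ Ω
  symm : ∀ x ∈ Ω, -x ∈ Ω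

/-- `Var ⟪θ, X⟫ ≤ s ‖θ‖²` for all `θ`: the covariance matrix of `μ` has norm at most `s`. -/
def CovLe {κ : Type} [Fintype κ] (μ : Measure (EuclideanSpace ℝ κ)) (s : ℝ) : Prop :=
  ∀ θ : EuclideanSpace ℝ κ,
    ProbabilityTheory.evariance (fun x => ⟪θ, x⟫_ℝ) μ ≤ ENNReal.ofReal (s * ‖θ‖ ^ 2)

/-- `D` is a KLS constant in dimension `q`: `Var f ≤ D s E ‖∇ f‖²` for all `C¹` functions `f` and all
log-concave probability densities `ρ` on `ℝ^q` with bounded support whose covariance matrix has norm
at most `s`. -/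
def KLSConst (q : ℕ) (D : ℝ) : Prop :=
  ∀ ρ : EuclideanSpace ℝ (Fin q) → ℝ, (∀ x, 0 ≤ ρ x) → Measurable ρ →
    (∀ x y, ∀ t : ℝ, 0 < t → t < 1 → ρ x ^ (1 - t) * ρ y ^ t ≤ ρ ((1 - t) • x + t • y)) →
    (∃ R : ℝ, ∀ x, R < ‖x‖ → ρ x = 0) → ∀ μ : Measure (EuclideanSpace ℝ (Fin q)),
    μ = volume.withDensity (fun x => ENNReal.ofReal (ρ x)) → IsProbabilityMeasure μ →
    ∀ s : ℝ, 0 < s → CovLe μ s → ∀ f : EuclideanSpace ℝ (Fin q) → ℝ, ContDiff ℝ 1 f →
    ProbabilityTheory.variance f μ ≤ D * s * ∫ x, ‖fderiv ℝ f x‖ ^ 2 ∂μ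

/-- `D ≥ 1` is at least `q + 1` or a KLS constant in dimension `q` -/
def Admissible (q : ℕ) (D : ℝ) : Prop := 1 ≤ D ∧ ((q : ℝ) + 1 ≤ D ∨ KLSConst q D)

theorem ad_of {q : ℕ} {D : ℝ} (h : Admissible q D) : Pool.Agent.Q197.RG.AD q D :=
  ⟨h.1, h.2.imp id fun h2 => Pool.Agent.Q197.RG.kpo_of h2⟩

/-- the Lebesgue measure of a Euclidean space -/
noncomputable def lebesgue (F : Type) [NormedAddCommGroup F] [InnerProductSpace ℝ F]
    [FiniteDimensional ℝ F] [MeasurableSpace F] [BorelSpace F] : Measure F := volume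

/-- the Lebesgue measure (of the Euclidean space `W`) of the section `Ω ∩ W` by a subspace `W` -/
noncomputable def areaIn {F : Type} [NormedAddCommGroup F] [InnerProductSpace ℝ F]
    [FiniteDimensional ℝ F] [MeasurableSpace F] [BorelSpace F] (W : Submodule ℝ F) (Ω : Set F) :
    ℝ≥0∞ := lebesgue W {y : W | (y : F) ∈ Ω}

section defs

/-- an open, convex, bounded, nonempty set -/
structure Domain (Ω : Set (EuclideanSpace ℝ κ)) : Prop where
  op : IsOpen Ω
  conv : Convex ℝ Ω
  bdd : Bornology.IsBounded Ω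
  ne : Ω.Nonempty

open Classical in
/-- divergence of a vector field on `ℝ^κ` -/
noncomputable def divergence (X : EuclideanSpace ℝ κ → EuclideanSpace ℝ κ)
    (x : EuclideanSpace ℝ κ) : ℝ :=
  ∑ i, fderiv ℝ X x (EuclideanSpace.single i 1) i

/-- `C¹` vector fields with compact support in `Ω` and `‖X‖ ≤ 1` -/
structure Test (Ω : Set (EuclideanSpace ℝ κ)) (X : EuclideanSpace ℝ κ → EuclideanSpace ℝ κ) :
    Prop where
  diff : ContDiff ℝ 1 X
  comp : HasCompactSupport X
  sub : tsupport X ⊆ Ω
  le : ∀ x, ‖X x‖ ≤ 1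

/-- the (De Giorgi) perimeter `P(E; Ω)` of `E` relative to the open set `Ω` -/
noncomputable def perimeter (E Ω : Set (EuclideanSpace ℝ κ)) : ℝ≥0∞ :=
  ⨆ (X : EuclideanSpace ℝ κ → EuclideanSpace ℝ κ) (_ : Test Ω X),
    ENNReal.ofReal (∫ x in E, divergence X x)

/-- the area (Lebesgue measure in the hyperplane `a^⊥`) of the central section of `Ω` by `a^⊥` -/
noncomputable def sectionArea (Ω : Set (EuclideanSpace ℝ κ)) (a : EuclideanSpace ℝ κ) : ℝ≥0∞ :=
  areaIn (Submodule.span ℝ {a})ᗮ Ω

/-- some central hyperplane section has area at most `K P(E; Ω)` for every measurable `E ⊆ Ω` with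
`|E| = |Ω| / 2` -/
def HyperplaneBound (K : ℝ) (Ω : Set (EuclideanSpace ℝ κ)) : Prop :=
  ∃ a : EuclideanSpace ℝ κ, a ≠ 0 ∧ ∀ E : Set (EuclideanSpace ℝ κ), MeasurableSet E → E ⊆ Ω →
    volume E = volume Ω / 2 → sectionArea Ω a ≤ ENNReal.ofReal K * perimeter E Ω

/-- the perimeter is the one used in the proof -/
theorem perimeter_eq (E Ω : Set (EuclideanSpace ℝ κ)) :
    Pool.Agent.W695.KH.per E Ω = perimeter E Ω := by
  unfold perimeter Pool.Agent.W695.KH.per
  refine iSup_congr fun X => ?_
  refine iSup_congr_Prop ⟨fun h => ⟨h.1, h.2.1, h.2.2.1, h.2.2.2⟩,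
    fun h => ⟨h.diff, h.comp, h.sub, h.le⟩⟩ fun _ => rfl

end defs

/-- **The hyperplane conjecture for finite reflection groups.** There is an absolute constant `C` such
that for all systems of `n` mutually orthogonal regular simplices (type `A`) and `r` finite orthonormal
systems (type `D`), `n + r ≥ 1`, with at least `m ≥ 2` vectors each, and every nonempty open bounded
convex set `Ω = -Ω` in `ℝ^κ` invariant under the corresponding reflections there is a central
hyperplane `a^⊥` such that for every measurable `E ⊆ Ω` with `|E| = |Ω| / 2`: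
`H_{d-1}(Ω ∩ a^⊥) ≤ C √D (1 + log (n + r) / m) P(E; Ω)`; here `q` is the dimension of the space of the
fixed vectors and `D = q + 1`, or any KLS constant `D ≥ 1` of the dimension `q`. -/
theorem result : ∃ C : ℝ, 0 < C ∧ ∀ (κ ι ν : Type) [Fintype κ] [Nonempty κ] [Fintype ι]
    [DecidableEq ι] [Fintype ν] [DecidableEq ν] (n r m : ℕ), 1 ≤ n + r → 2 ≤ m →
    ∀ (b : ι → Fin n) (u : ι → EuclideanSpace ℝ κ) (d : ν → Fin r) (v : ν → EuclideanSpace ℝ κ),
    Roots b u d v → (∀ j, m ≤ size b j) → (∀ j, m ≤ size d j) →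
    ∀ D : ℝ, Admissible (fixedDim u v) D →
    ∀ Ω : Set (EuclideanSpace ℝ κ), Domain Ω → Invariant b u d v Ω →
    HyperplaneBound (C * (Real.sqrt D * (1 + Real.log (n + r : ℕ) / m))) Ω := by
  obtain ⟨C, hC, H⟩ := Pool.Agent.W695.KH.final Pool.Agent.W695.KH.main Pool.Agent.W695.KH.proj
  obtain ⟨C₂, hC₂, h₂⟩ := Pool.Agent.Q197.RG.weakD
  refine ⟨C * Real.sqrt C₂, by positivity, ?_⟩
  intro κ ι ν _ _ _ _ _ _ n r m hN hm b u d v h hb hd D hD Ω hΩ hinv
  obtain ⟨hop, hco, hbd, hne⟩ := hΩ
  have hfac := Pool.Agent.Q197.RG.fac_pos hD.1 (n + r) m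
  have hRt : Pool.Agent.Q197.RG.Rt b u v := ⟨⟨h.gram⟩, h.orth, h.perp⟩
  have h0 : (0 : EuclideanSpace ℝ κ) ∈ Ω := by
    obtain ⟨x, hx⟩ := hne
    have h1 := hco hx (hinv.symm x hx) (by norm_num : (0 : ℝ) ≤ 1 / 2)
      (by norm_num : (0 : ℝ) ≤ 1 / 2) (by norm_num)
    simpa using h1
  have hS := Pool.Agent.Q197.RG.set_of hRt hinv.refl hinv.refl_sub hinv.refl_add
  obtain ⟨a, ha, h3⟩ := H κ Ω hop hco hbd h0 hinv.symm
    (C₂ * Pool.Agent.Q197.RG.fac D (n + r) m) (mul_pos hC₂ hfac) (by
      intro r' A hr hr1 hA hprob hnn hmeas hlc hiso s hs hcov w hw hwb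
      exact h₂ h.surj h.surj' hRt hN hm hb hd D (ad_of hD) Ω hS _ hnn hmeas hlc hiso hprob s hs
        hcov w hw hwb)
  refine ⟨a, ha, fun E hE hEΩ hvol => ?_⟩
  have h4 := h3 E hE hEΩ hvol
  rw [perimeter_eq] at h4
  have e : C * Real.sqrt (C₂ * Pool.Agent.Q197.RG.fac D (n + r) m) =
      C * Real.sqrt C₂ * (Real.sqrt D * (1 + Real.log (n + r : ℕ) / m)) := by
    rw [Real.sqrt_mul hC₂.le, Pool.Agent.Q197.RG.sqrt_fac hD.1]
    ring
  rw [e] at h4
  exact h4

end Pool.Agent.Results.MP_dc1397_gt.ReflectionGroups
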